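import Pool.Agent.W203.WS.Stm

set_option autoImplicit false
open MeasureTheory Set

namespace Pool.Agent.W706.WS
open Pool.Agent.W203.WS

theorem add_rpow_le' {x y p : ℝ} (hx : 0 ≤ x) (hy : 0 ≤ y) (hp : 0 ≤ p) :
    (x + y) ^ p ≤ 2 ^ p * (x ^ p + y ^ p) := by
  wlog h : x ≤ y with H
  · rw [add_comm x y, add_comm (x ^ p)]
    exact H hy hx hp (le_of_not_ge h)
  calc (x + y) ^ p ≤ (2 * y) ^ p := Real.rpow_le_rpow (by positivity) (by linarith) hp
    _ = 2 ^ p * y ^ p := Real.mul_rpow (by norm_num) hy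
    _ ≤ _ := by
      apply mul_le_mul_of_nonneg_left _ (by positivity)
      have := Real.rpow_nonneg hx p
      linarith

theorem integrable_Kh {ε : ℝ} (hε : 0 < ε) : Integrable (Kh ε) ∧ ∫ t, Kh ε t = 1 := by
  have hb : 0 < Real.pi * ε ^ 2 := by positivity
  have h1 := integrable_exp_neg_mul_sq hb
  have h2 := integral_gaussian (Real.pi * ε ^ 2)
  have e1 : Kh ε = fun t => ε * Real.exp (-(Real.pi * ε ^ 2) * t ^ 2) := by
    funext t; simp only [Kh]; congr 2; ring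
  rw [e1]
  refine ⟨h1.const_mul _, ?_⟩
  rw [integral_const_mul, h2]
  rw [show Real.pi / (Real.pi * ε ^ 2) = (1 / ε) ^ 2 by field_simp]
  rw [Real.sqrt_sq (by positivity)]
  field_simp

theorem integrable_tail {T p : ℝ} (hT : 0 < T) (hp : 1 < p) :
    IntegrableOn (fun t : ℝ => |t| ^ (-p)) (Icc (-T) T)ᶜ ∧
    ∫ t in (Icc (-T) T)ᶜ, |t| ^ (-p) = 2 * (T ^ (1 - p) / (p - 1)) := by
  have hpos : IntegrableOn (fun t : ℝ => |t| ^ (-p)) (Ioi T) := by
    refine (integrableOn_Ioi_rpow_of_lt (a := -p) (by linarith) hT).congr_fun ?_ measurableSet_Ioi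
    intro t ht
    simp only [abs_of_pos (hT.trans ht)]
  have hposi : ∫ t in Ioi T, |t| ^ (-p) = T ^ (1 - p) / (p - 1) := by
    have h1 := integral_Ioi_rpow_of_lt (a := -p) (by linarith) hT
    rw [setIntegral_congr_fun measurableSet_Ioi (g := fun t : ℝ => t ^ (-p))]
    · rw [h1, show -p + 1 = -(p - 1) by ring, neg_div_neg_eq, neg_sub]
    · intro t ht
      simp only [abs_of_pos (hT.trans ht)]
  have hneg : IntegrableOn (fun t : ℝ => |t| ^ (-p)) (Iio (-T)) := by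
    have h0 : IntegrableOn (fun t : ℝ => |t| ^ (-p)) (Ioi (-(-T))) := by rwa [neg_neg]
    have := h0.comp_neg_Iio
    simpa using this
  have hnegi : ∫ t in Iio (-T), |t| ^ (-p) = T ^ (1 - p) / (p - 1) := by
    rw [← hposi, ← integral_Iic_eq_integral_Iio]
    have := integral_comp_neg_Iic (-T) (fun t : ℝ => |t| ^ (-p))
    simpa using this
  have hset : (Icc (-T) T)ᶜ = Iio (-T) ∪ Ioi T := by
    ext x
    simp only [mem_compl_iff, mem_Icc, mem_union, mem_Iio, mem_Ioi, not_and_or, not_le]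
  rw [hset]
  refine ⟨hneg.union hpos, ?_⟩
  rw [setIntegral_union ?_ measurableSet_Ioi hneg hpos, hposi, hnegi]
  · ring
  · rw [Set.disjoint_left]
    intro x hx hx2
    simp only [mem_Iio, mem_Ioi] at hx hx2
    linarith

theorem t_R2 (h : S_SQ) : S_R2 := by
  intro k s hk hs
  have hs' : (5 : ℝ) ≤ s := by exact_mod_cast hs
  set p : ℝ := (s : ℝ) / 2 with hp
  have hp1 : 1 < p := by rw [hp]; linarith
  have hp0 : 0 < p := by linarith
  set K : ℝ := 1 + 2 * s * (3 : ℝ) ^ (1 / (2 * s : ℝ)) with hK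
  have hK0 : 0 < K := by positivity
  set C1 : ℝ := 2 ^ p * 3 ^ p with hC1
  set C2 : ℝ := 2 ^ p * K ^ p * (2 / (p - 1)) with hC2
  have hC10 : 0 < C1 := by positivity
  have hC20 : 0 < C2 := by
    have : 0 < p - 1 := by linarith
    positivity
  refine ⟨C1 + C2, by positivity, ?_⟩
  intro P ε hP hε hε1
  have hP1 : (1 : ℝ) ≤ P := by exact_mod_cast hP
  have hP0 : (0 : ℝ) < P := by linarith
  set A : ℝ := 3 * P with hA
  have hA0 : 0 < A := by positivity
  set L : ℝ := 1 + Real.log (3 * P) with hL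
  have hlog : 0 ≤ Real.log (3 * P) := Real.log_nonneg (by linarith)
  have hL0 : 0 < L := by rw [hL]; linarith
  set D : ℝ := (P : ℝ) ^ (k - 2) with hD
  have hD0 : 0 < D := by positivity
  have hT0 : 0 < T0 k P := by
    unfold T0; positivity
  set g : ℝ → ℝ := fun t => (2 ^ p * A ^ p) * Kh ε t + (2 ^ p * ε * (L / D) ^ p) * |t| ^ (-p) with hg
  obtain ⟨hKi, hK1⟩ := integrable_Kh hε
  obtain ⟨hTi, hT1⟩ := integrable_tail hT0 hp1
  have hKh0 : ∀ t, 0 ≤ Kh ε t := by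
    intro t; unfold Kh; positivity
  have hKhε : ∀ t, Kh ε t ≤ ε := by
    intro t; unfold Kh
    have : Real.exp (-Real.pi * (ε * t) ^ 2) ≤ 1 := by
      rw [Real.exp_le_one_iff]
      have : 0 ≤ Real.pi * (ε * t) ^ 2 := by positivity
      linarith
    nlinarith
  have ha0 : ∀ t, 0 ≤ ∫ θ in (0 : ℝ)..1, ‖S k P t θ‖ ^ 2 := by
    intro t
    exact intervalIntegral.integral_nonneg (by norm_num) (fun _ _ => by positivity)
  have hgi : IntegrableOn g (Icc (-T0 k P) (T0 k P))ᶜ := by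
    exact (hKi.integrableOn.const_mul _).add (hTi.const_mul _)
  have hle : ∫ t in (Set.Icc (-T0 k P) (T0 k P))ᶜ,
      Kh ε t * (∫ θ in (0 : ℝ)..1, ‖S k P t θ‖ ^ 2) ^ ((s : ℝ) / 2) ≤
      ∫ t in (Set.Icc (-T0 k P) (T0 k P))ᶜ, g t := by
    apply integral_mono_of_nonneg
    · exact Filter.Eventually.of_forall fun t => mul_nonneg (hKh0 t) (Real.rpow_nonneg (ha0 t) _)
    · exact hgi
    · refine (ae_restrict_iff' measurableSet_Icc.compl).2 (Filter.Eventually.of_forall ?_)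
      intro t ht
      have ht0 : t ≠ 0 := by
        rintro rfl
        exact ht ⟨by linarith, hT0.le⟩
      have habs : 0 < |t| := abs_pos.2 ht0
      have h1 := h k P t hk hP ht0
      have h2 : (∫ θ in (0 : ℝ)..1, ‖S k P t θ‖ ^ 2) ^ p ≤
          2 ^ p * (A ^ p + (L / D) ^ p * |t| ^ (-p)) := by
        calc (∫ θ in (0 : ℝ)..1, ‖S k P t θ‖ ^ 2) ^ p ≤ (A + L / (|t| * D)) ^ p :=
              Real.rpow_le_rpow (ha0 t) h1 hp0.le
          _ ≤ 2 ^ p * (A ^ p + (L / (|t| * D)) ^ p) := add_rpow_le' hA0.le (by positivity) hp0.le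
          _ = _ := by
            have : L / (|t| * D) = (L / D) * |t|⁻¹ := by field_simp
            rw [this, Real.mul_rpow (x := L / D) (y := |t|⁻¹) (by positivity) (by positivity),
              Real.inv_rpow habs.le, ← Real.rpow_neg habs.le]
      change Kh ε t * (∫ θ in (0 : ℝ)..1, ‖S k P t θ‖ ^ 2) ^ p ≤ g t
      have h3 : 0 ≤ (L / D) ^ p * |t| ^ (-p) := by positivity
      calc Kh ε t * (∫ θ in (0 : ℝ)..1, ‖S k P t θ‖ ^ 2) ^ p
          ≤ Kh ε t * (2 ^ p * (A ^ p + (L / D) ^ p * |t| ^ (-p))) :=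
            mul_le_mul_of_nonneg_left h2 (hKh0 t)
        _ = (2 ^ p * A ^ p) * Kh ε t + Kh ε t * (2 ^ p * ((L / D) ^ p * |t| ^ (-p))) := by ring
        _ ≤ (2 ^ p * A ^ p) * Kh ε t + ε * (2 ^ p * ((L / D) ^ p * |t| ^ (-p))) := by
            have := mul_le_mul_of_nonneg_right (hKhε t)
              (show 0 ≤ (2 : ℝ) ^ p * ((L / D) ^ p * |t| ^ (-p)) by positivity)
            linarith
        _ = g t := by rw [hg]; ring
  refine hle.trans ?_
  have hgint : ∫ t in (Set.Icc (-T0 k P) (T0 k P))ᶜ, g t ≤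
      2 ^ p * A ^ p + (2 ^ p * ε * (L / D) ^ p) * (2 * (T0 k P ^ (1 - p) / (p - 1))) := by
    rw [hg, integral_add (hKi.integrableOn.const_mul _) (hTi.const_mul _),
      integral_const_mul, integral_const_mul, hT1]
    have h1 : ∫ t in (Set.Icc (-T0 k P) (T0 k P))ᶜ, Kh ε t ≤ 1 := by
      rw [← hK1]
      exact setIntegral_le_integral hKi (Filter.Eventually.of_forall hKh0)
    have h2 := mul_le_mul_of_nonneg_left h1 (show 0 ≤ (2 : ℝ) ^ p * A ^ p by positivity)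
    linarith
  refine hgint.trans ?_
  have hfirst : 2 ^ p * A ^ p = C1 * (P : ℝ) ^ p := by
    rw [hA, Real.mul_rpow (by norm_num) hP0.le, hC1]; ring
  have hLK : L ≤ K * (P : ℝ) ^ (1 / (2 * s : ℝ)) := by
    have h1 := Real.log_le_rpow_div (x := 3 * P) (by positivity) (ε := 1 / (2 * s : ℝ)) (by positivity)
    rw [Real.mul_rpow (by norm_num) hP0.le] at h1
    have h2 : (1 : ℝ) ≤ (P : ℝ) ^ (1 / (2 * s : ℝ)) := Real.one_le_rpow hP1 (by positivity)
    rw [div_div_eq_mul_div, div_one] at h1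
    rw [hL, hK]
    nlinarith
  have hLp : L ^ p ≤ K ^ p * (P : ℝ) ^ (1 / 4 : ℝ) := by
    calc L ^ p ≤ (K * (P : ℝ) ^ (1 / (2 * s : ℝ))) ^ p := Real.rpow_le_rpow hL0.le hLK hp0.le
      _ = K ^ p * ((P : ℝ) ^ (1 / (2 * s : ℝ))) ^ p :=
        Real.mul_rpow hK0.le (by positivity)
      _ = _ := by
        rw [← Real.rpow_mul hP0.le]
        congr 2
        rw [hp]
        have : (s : ℝ) ≠ 0 := by positivity
        field_simp
        norm_num
  have hDp : D ^ p = (P : ℝ) ^ (((k : ℝ) - 2) * p) := by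
    rw [hD, ← Real.rpow_natCast, ← Real.rpow_mul hP0.le]
    congr 2
    push_cast [Nat.cast_sub hk]
    ring
  have hTp : T0 k P ^ (1 - p) = (P : ℝ) ^ ((-(k : ℝ) + 1 / 2) * (1 - p)) := by
    unfold T0
    rw [← Real.rpow_mul hP0.le]
  have hsecond : (2 ^ p * ε * (L / D) ^ p) * (2 * (T0 k P ^ (1 - p) / (p - 1))) ≤
      C2 * (ε * (P : ℝ) ^ ((s : ℝ) - k - 1 / 2)) := by
    rw [Real.div_rpow hL0.le hD0.le, hDp, hTp]
    have hp1' : 0 < p - 1 := by linarith
    have e1 : (2 ^ p * ε * (L ^ p / (P : ℝ) ^ (((k : ℝ) - 2) * p))) *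
        (2 * ((P : ℝ) ^ ((-(k : ℝ) + 1 / 2) * (1 - p)) / (p - 1))) =
        (2 ^ p * (2 / (p - 1)) * ε) * (L ^ p * ((P : ℝ) ^ (-(((k : ℝ) - 2) * p)) *
          (P : ℝ) ^ ((-(k : ℝ) + 1 / 2) * (1 - p)))) := by
      rw [Real.rpow_neg hP0.le]
      field_simp
    rw [e1, ← Real.rpow_add hP0]
    have e2 : C2 * (ε * (P : ℝ) ^ ((s : ℝ) - k - 1 / 2)) =
        (2 ^ p * (2 / (p - 1)) * ε) * (K ^ p * (P : ℝ) ^ ((s : ℝ) - k - 1 / 2)) := by
      rw [hC2]; ring
    rw [e2]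
    apply mul_le_mul_of_nonneg_left _ (by positivity)
    calc L ^ p * (P : ℝ) ^ (-(((k : ℝ) - 2) * p) + (-(k : ℝ) + 1 / 2) * (1 - p))
        ≤ (K ^ p * (P : ℝ) ^ (1 / 4 : ℝ)) *
          (P : ℝ) ^ (-(((k : ℝ) - 2) * p) + (-(k : ℝ) + 1 / 2) * (1 - p)) :=
          mul_le_mul_of_nonneg_right hLp (by positivity)
      _ = K ^ p * (P : ℝ) ^ ((1 / 4 : ℝ) +
          (-(((k : ℝ) - 2) * p) + (-(k : ℝ) + 1 / 2) * (1 - p))) := by
          rw [mul_assoc, ← Real.rpow_add hP0]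
      _ ≤ _ := by
          apply mul_le_mul_of_nonneg_left _ (by positivity)
          apply Real.rpow_le_rpow_of_exponent_le hP1
          rw [hp]
          nlinarith
  have hX : 0 ≤ ε * (P : ℝ) ^ ((s : ℝ) - k - 1 / 2) := by positivity
  have hY : 0 ≤ (P : ℝ) ^ p := by positivity
  rw [hfirst]
  have h4 := mul_nonneg hC10.le hX
  have h5 := mul_nonneg hC20.le hY
  calc C1 * (P : ℝ) ^ p + (2 ^ p * ε * (L / D) ^ p) * (2 * (T0 k P ^ (1 - p) / (p - 1)))
      ≤ C1 * (P : ℝ) ^ p + C2 * (ε * (P : ℝ) ^ ((s : ℝ) - k - 1 / 2)) := by linarith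
    _ ≤ (C1 + C2) * (ε * (P : ℝ) ^ ((s : ℝ) - k - 1 / 2) + (P : ℝ) ^ p) := by linarith

end Pool.Agent.W706.WS
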